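import Pool.Agent.H76.SW.T

/-! D1: rooting a tree decomposition (MP_d2582e_lc). -/

set_option autoImplicit false

namespace Pool.Agent.H54.SW

open Pool.Agent.H76.SW

theorem conn_aux {N : Type} (T : SimpleGraph N) (hT : T.IsTree) (r : N) (S : Set N)
    (hS : (T.induce S).Connected) (p : ∀ x, T.Walk x r) (hp : ∀ x, (p x).IsPath) :
    ∃ t ∈ S, ∀ x ∈ S, x = t ∨ (x ≠ r ∧ (p x).snd ∈ S) := by
  classical
  obtain ⟨⟨t0, ht0⟩⟩ := hS.nonempty
  obtain ⟨t, ht, hmin⟩ : ∃ t ∈ S, ∀ x ∈ S, T.dist t r ≤ T.dist x r := by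
    have hex : ∃ n, ∃ t ∈ S, T.dist t r = n := ⟨_, t0, ht0, rfl⟩
    obtain ⟨t, ht, e⟩ := Nat.find_spec hex
    refine ⟨t, ht, fun x hx => ?_⟩
    rw [e]
    exact Nat.find_min' hex ⟨x, hx, rfl⟩
  refine ⟨t, ht, fun x hx => ?_⟩
  by_cases hxt : x = t
  · exact Or.inl hxt
  refine Or.inr ?_
  have hxr : x ≠ r := by
    rintro rfl
    have h1 := hmin _ hx
    rw [SimpleGraph.dist_self] at h1
    have h2 : T.dist t x = 0 := by omega
    exact hxt ((hT.connected.dist_eq_zero_iff).1 h2).symm
  refine ⟨hxr, ?_⟩
  -- the path inside S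
  obtain ⟨q', hq', -⟩ := hS.exists_path_of_dist ⟨x, hx⟩ ⟨t, ht⟩
  let q : T.Walk x t := q'.map (SimpleGraph.Embedding.induce S).toHom
  have hq : q.IsPath :=
    SimpleGraph.Walk.IsPath.map (f := (SimpleGraph.Embedding.induce S).toHom)
      Subtype.val_injective hq'
  have hqS : ∀ z ∈ q.support, z ∈ S := by
    intro z hz
    have hz2 : z ∈ (q'.map (SimpleGraph.Embedding.induce S).toHom).support := hz
    rw [SimpleGraph.Walk.support_map, List.mem_map] at hz2
    obtain ⟨w, -, rfl⟩ := hz2
    exact w.2
  apply hqS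
  -- the shortest path from t to r
  obtain ⟨w, hw, hwl⟩ := hT.connected.exists_path_of_dist t r
  have hpn : ¬ (p x).Nil := fun h => hxr h.eq
  have hadj : T.Adj x (p x).snd := (p x).adj_snd hpn
  have hpe : (q.append w).bypass = p x := by
    have := hT.isAcyclic.path_unique ⟨_, (q.append w).bypass_isPath⟩ ⟨p x, hp x⟩
    exact congrArg Subtype.val this
  have hy : (p x).snd ∈ (q.append w).support := by
    apply SimpleGraph.Walk.support_bypass_subset_support
    rw [hpe]
    exact (p x).getVert_mem_support 1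
  rw [SimpleGraph.Walk.mem_support_append_iff] at hy
  rcases hy with hy | hy
  · exact hy
  have hxw : x ∉ w.support := by
    intro hxw
    have h1 : (w.takeUntil x hxw).length + (w.dropUntil x hxw).length = w.length := by
      rw [← SimpleGraph.Walk.length_append, SimpleGraph.Walk.take_spec]
    have h2 : T.dist x r ≤ (w.dropUntil x hxw).length := SimpleGraph.dist_le _
    have h3 := hmin x hx
    have h4 : (w.takeUntil x hxw).length = 0 := by omega
    exact hxt (SimpleGraph.Walk.eq_of_length_eq_zero h4).symm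
  have hpath : ((w.takeUntil _ hy).concat hadj.symm).IsPath := by
    refine SimpleGraph.Walk.IsPath.concat (hw.takeUntil hy) ?_ _
    intro h
    exact hxw (w.support_takeUntil_subset_support hy h)
  have he : (w.takeUntil _ hy).concat hadj.symm = q.reverse := by
    have := hT.isAcyclic.path_unique ⟨_, hpath⟩ ⟨q.reverse, hq.reverse⟩
    exact congrArg Subtype.val this
  have hmem : (p x).snd ∈ ((w.takeUntil _ hy).concat hadj.symm).support := by
    rw [SimpleGraph.Walk.support_concat]
    exact List.mem_append_left _ (SimpleGraph.Walk.end_mem_support _)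
  rw [he, SimpleGraph.Walk.support_reverse, List.mem_reverse] at hmem
  exact hmem

theorem pf_D1 : U_d1_root := by
  intro V _ G k h
  classical
  obtain ⟨N, fN, T, B, hT, hcov, hedge, hconn, hcard⟩ := h
  obtain ⟨r⟩ := hT.connected.nonempty
  have hp : ∀ x, ∃ p : T.Walk x r, p.IsPath ∧ p.length = T.dist x r :=
    fun x => hT.connected.exists_path_of_dist x r
  choose p hp hpl using hp
  refine ⟨{
    N := N
    fin := fN
    par := fun x => if x = r then none else some (p x).snd
    rk := fun x => T.dist x r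
    hrk := ?_
    B := fun x => (hcard x).1.toFinset
    cov := ?_
    edge := ?_
    conn := ?_
    card := ?_ }⟩
  · intro x y hxy
    by_cases hx : x = r
    · simp [hx] at hxy
    · rw [if_neg hx] at hxy
      have hy : (p x).snd = y := Option.some.inj hxy
      have hpn : ¬ (p x).Nil := fun h => hx h.eq
      have h1 := SimpleGraph.Walk.length_tail_add_one hpn
      have h2 : T.dist (p x).snd r ≤ (p x).tail.length := SimpleGraph.dist_le _
      have h3 := hpl x
      have h4 : T.dist (p x).snd r < T.dist x r := by omega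
      rw [hy] at h4
      exact h4
  · intro v
    obtain ⟨x, hx⟩ := hcov v
    exact ⟨x, by rw [Set.Finite.mem_toFinset]; exact hx⟩
  · intro u v huv
    obtain ⟨x, hx, hx'⟩ := hedge u v huv
    exact ⟨x, by rw [Set.Finite.mem_toFinset]; exact hx, by rw [Set.Finite.mem_toFinset]; exact hx'⟩
  · intro v
    obtain ⟨t, ht, hh⟩ := conn_aux T hT r {x | v ∈ B x} (hconn v) p hp
    refine ⟨t, by rw [Set.Finite.mem_toFinset]; exact ht, fun x hx => ?_⟩
    rw [Set.Finite.mem_toFinset] at hx
    rcases hh x hx with h | ⟨h, h'⟩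
    · exact Or.inl h
    · refine Or.inr ⟨(p x).snd, by rw [if_neg h], ?_⟩
      rw [Set.Finite.mem_toFinset]
      exact h'
  · intro x
    have := (hcard x).2
    rw [Set.ncard_eq_toFinset_card _ (hcard x).1] at this
    exact this

end Pool.Agent.H54.SW
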